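import Mathlib
import Pool.Agent.Y440.A.Stm

/-! `S_sym`: the sums are symmetric. -/

set_option autoImplicit false
set_option linter.unusedSimpArgs false

namespace Pool.Agent.Y79.Q440

open Finset Pool.Agent.Y440.A

/-- A function which is invariant under adjacent transpositions is invariant. -/
theorem inv_of_adj {n : ℕ} {V β : Type} (f : (Fin (n + 1) → V) → β)
    (h : ∀ (i : Fin n) (x : Fin (n + 1) → V), f (x ∘ Equiv.swap i.castSucc i.succ) = f x)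
    (x : Fin (n + 1) → V) (π : Equiv.Perm (Fin (n + 1))) : f (x ∘ π) = f x := by
  have hπ : π ∈ Submonoid.closure
      (Set.range fun i : Fin n => Equiv.swap i.castSucc i.succ) := by
    rw [Equiv.Perm.mclosure_swap_castSucc_succ]
    trivial
  induction hπ using Submonoid.closure_induction generalizing x with
  | mem y hy =>
    obtain ⟨i, rfl⟩ := hy
    exact h i x
  | one => rfl
  | mul a b _ _ ha hb =>
    have h1 : x ∘ (a * b : Equiv.Perm (Fin (n + 1))) = (x ∘ a) ∘ b := rfl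
    rw [h1, hb, ha]

section

variable {V : Type} {κ : V → V → V → V → V → V → V → V → ℤ} (h : Sym62 κ)
include h

theorem L8_0 (x0 x1 x2 x3 x4 x5 x6 x7 : V) :
    L8 κ x1 x0 x2 x3 x4 x5 x6 x7 = L8 κ x0 x1 x2 x3 x4 x5 x6 x7 := by
  simp only [L8, h.k0, h.k1, h.k2, h.k3, h.k4, h.kw]
  ring

theorem L8_1 (x0 x1 x2 x3 x4 x5 x6 x7 : V) :
    L8 κ x0 x2 x1 x3 x4 x5 x6 x7 = L8 κ x0 x1 x2 x3 x4 x5 x6 x7 := by
  simp only [L8, h.k0, h.k1, h.k2, h.k3, h.k4, h.kw]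
  ring

theorem L8_2 (x0 x1 x2 x3 x4 x5 x6 x7 : V) :
    L8 κ x0 x1 x3 x2 x4 x5 x6 x7 = L8 κ x0 x1 x2 x3 x4 x5 x6 x7 := by
  simp only [L8, h.k0, h.k1, h.k2, h.k3, h.k4, h.kw]
  ring

theorem L8_3 (x0 x1 x2 x3 x4 x5 x6 x7 : V) :
    L8 κ x0 x1 x2 x4 x3 x5 x6 x7 = L8 κ x0 x1 x2 x3 x4 x5 x6 x7 := by
  simp only [L8, h.k0, h.k1, h.k2, h.k3, h.k4, h.kw]
  ring

theorem L8_4 (x0 x1 x2 x3 x4 x5 x6 x7 : V) :
    L8 κ x0 x1 x2 x3 x5 x4 x6 x7 = L8 κ x0 x1 x2 x3 x4 x5 x6 x7 := by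
  simp only [L8, h.k0, h.k1, h.k2, h.k3, h.k4, h.kw]
  ring

theorem L8_5 (x0 x1 x2 x3 x4 x5 x6 x7 : V) :
    L8 κ x0 x1 x2 x3 x4 x6 x5 x7 = L8 κ x0 x1 x2 x3 x4 x5 x6 x7 := by
  simp only [L8, h.k0, h.k1, h.k2, h.k3, h.k4, h.kw]
  ring

theorem L8_6 (x0 x1 x2 x3 x4 x5 x6 x7 : V) :
    L8 κ x0 x1 x2 x3 x4 x5 x7 x6 = L8 κ x0 x1 x2 x3 x4 x5 x6 x7 := by
  simp only [L8, h.k0, h.k1, h.k2, h.k3, h.k4, h.kw]
  ring

theorem L8f_inv (x : Fin 8 → V) (π : Equiv.Perm (Fin 8)) : L8f κ (x ∘ π) = L8f κ x := by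
  refine inv_of_adj (L8f κ) (fun i x => ?_) x π
  fin_cases i
  · exact L8_0 h _ _ _ _ _ _ _ _
  · exact L8_1 h _ _ _ _ _ _ _ _
  · exact L8_2 h _ _ _ _ _ _ _ _
  · exact L8_3 h _ _ _ _ _ _ _ _
  · exact L8_4 h _ _ _ _ _ _ _ _
  · exact L8_5 h _ _ _ _ _ _ _ _
  · exact L8_6 h _ _ _ _ _ _ _ _

end

section

variable {V : Type} {E : V → V → V → V → ℕ} (h : Odd4 E)
include h

theorem D8_0 (x0 x1 x2 x3 x4 x5 x6 x7 : V) :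
    D8 E x1 x0 x2 x3 x4 x5 x6 x7 = D8 E x0 x1 x2 x3 x4 x5 x6 x7 := by
  have s0 := h.s0
  have s1 := h.s1
  have s2 := h.s2
  clear h
  unfold D8 t7 g7
  simp only [s0, s1, s2]
  ac_rfl

theorem D8_1 (x0 x1 x2 x3 x4 x5 x6 x7 : V) :
    D8 E x0 x2 x1 x3 x4 x5 x6 x7 = D8 E x0 x1 x2 x3 x4 x5 x6 x7 := by
  have s0 := h.s0
  have s1 := h.s1
  have s2 := h.s2
  clear h
  unfold D8 t7 g7
  simp only [s0, s1, s2]
  ac_rfl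

theorem D8_2 (x0 x1 x2 x3 x4 x5 x6 x7 : V) :
    D8 E x0 x1 x3 x2 x4 x5 x6 x7 = D8 E x0 x1 x2 x3 x4 x5 x6 x7 := by
  have s0 := h.s0
  have s1 := h.s1
  have s2 := h.s2
  clear h
  unfold D8 t7 g7
  simp only [s0, s1, s2]
  ac_rfl

theorem D8_3 (x0 x1 x2 x3 x4 x5 x6 x7 : V) :
    D8 E x0 x1 x2 x4 x3 x5 x6 x7 = D8 E x0 x1 x2 x3 x4 x5 x6 x7 := by
  have s0 := h.s0
  have s1 := h.s1
  have s2 := h.s2
  clear h
  unfold D8 t7 g7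
  simp only [s0, s1, s2]
  ac_rfl

theorem D8_4 (x0 x1 x2 x3 x4 x5 x6 x7 : V) :
    D8 E x0 x1 x2 x3 x5 x4 x6 x7 = D8 E x0 x1 x2 x3 x4 x5 x6 x7 := by
  have s0 := h.s0
  have s1 := h.s1
  have s2 := h.s2
  clear h
  unfold D8 t7 g7
  simp only [s0, s1, s2]
  ac_rfl

theorem D8_5 (x0 x1 x2 x3 x4 x5 x6 x7 : V) :
    D8 E x0 x1 x2 x3 x4 x6 x5 x7 = D8 E x0 x1 x2 x3 x4 x5 x6 x7 := by
  have s0 := h.s0
  have s1 := h.s1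
  have s2 := h.s2
  clear h
  unfold D8 t7 g7
  simp only [s0, s1, s2]
  ac_rfl

theorem D8_6 (x0 x1 x2 x3 x4 x5 x6 x7 : V) :
    D8 E x0 x1 x2 x3 x4 x5 x7 x6 = D8 E x0 x1 x2 x3 x4 x5 x6 x7 := by
  have s0 := h.s0
  have s1 := h.s1
  have s2 := h.s2
  clear h
  unfold D8 t7 g7
  simp only [s0, s1, s2]
  ac_rfl

theorem t7_0 (x0 x1 x2 x3 x4 x5 x6 : V) :
    t7 E x1 x0 x2 x3 x4 x5 x6 = t7 E x0 x1 x2 x3 x4 x5 x6 := by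
  have s0 := h.s0
  have s1 := h.s1
  have s2 := h.s2
  clear h
  unfold t7
  simp only [s0, s1, s2]
  ac_rfl

theorem t7_1 (x0 x1 x2 x3 x4 x5 x6 : V) :
    t7 E x0 x2 x1 x3 x4 x5 x6 = t7 E x0 x1 x2 x3 x4 x5 x6 := by
  have s0 := h.s0
  have s1 := h.s1
  have s2 := h.s2
  clear h
  unfold t7
  simp only [s0, s1, s2]
  ac_rfl

theorem t7_2 (x0 x1 x2 x3 x4 x5 x6 : V) :
    t7 E x0 x1 x3 x2 x4 x5 x6 = t7 E x0 x1 x2 x3 x4 x5 x6 := by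
  have s0 := h.s0
  have s1 := h.s1
  have s2 := h.s2
  clear h
  unfold t7
  simp only [s0, s1, s2]
  ac_rfl

theorem t7_3 (x0 x1 x2 x3 x4 x5 x6 : V) :
    t7 E x0 x1 x2 x4 x3 x5 x6 = t7 E x0 x1 x2 x3 x4 x5 x6 := by
  have s0 := h.s0
  have s1 := h.s1
  have s2 := h.s2
  clear h
  unfold t7
  simp only [s0, s1, s2]
  ac_rfl

theorem t7_4 (x0 x1 x2 x3 x4 x5 x6 : V) :
    t7 E x0 x1 x2 x3 x5 x4 x6 = t7 E x0 x1 x2 x3 x4 x5 x6 := by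
  have s0 := h.s0
  have s1 := h.s1
  have s2 := h.s2
  clear h
  unfold t7
  simp only [s0, s1, s2]
  ac_rfl

theorem t7_5 (x0 x1 x2 x3 x4 x5 x6 : V) :
    t7 E x0 x1 x2 x3 x4 x6 x5 = t7 E x0 x1 x2 x3 x4 x5 x6 := by
  have s0 := h.s0
  have s1 := h.s1
  have s2 := h.s2
  clear h
  unfold t7
  simp only [s0, s1, s2]
  ac_rfl

theorem D8f_inv (x : Fin 8 → V) (π : Equiv.Perm (Fin 8)) : D8f E (x ∘ π) = D8f E x := by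
  refine inv_of_adj (D8f E) (fun i x => ?_) x π
  fin_cases i
  · exact D8_0 h _ _ _ _ _ _ _ _
  · exact D8_1 h _ _ _ _ _ _ _ _
  · exact D8_2 h _ _ _ _ _ _ _ _
  · exact D8_3 h _ _ _ _ _ _ _ _
  · exact D8_4 h _ _ _ _ _ _ _ _
  · exact D8_5 h _ _ _ _ _ _ _ _
  · exact D8_6 h _ _ _ _ _ _ _ _

theorem t7f_inv (x : Fin 7 → V) (π : Equiv.Perm (Fin 7)) : t7f E (x ∘ π) = t7f E x := by
  refine inv_of_adj (t7f E) (fun i x => ?_) x π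
  fin_cases i
  · exact t7_0 h _ _ _ _ _ _ _
  · exact t7_1 h _ _ _ _ _ _ _
  · exact t7_2 h _ _ _ _ _ _ _
  · exact t7_3 h _ _ _ _ _ _ _
  · exact t7_4 h _ _ _ _ _ _ _
  · exact t7_5 h _ _ _ _ _ _ _

end

theorem t : S_sym :=
  ⟨fun _ _ h x π => L8f_inv h x π, fun _ _ h => ⟨D8f_inv h, t7f_inv h⟩⟩

end Pool.Agent.Y79.Q440
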